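import Mathlib
import Pool.Agent.Q65.US4
import Pool.Agent.Y114.RM.All3

/-!
# The Tate conjecture for the products of motives of any type with arbitrary smooth varieties

Let `M i` be finitely many pure motives (direct factors of the cohomology of smooth projective
varieties, cut out by correspondences, with a Tate twist) over a number field or a finitely generated
field `k` of characteristic zero, `V i` their `ℓ`-adic realizations for ONE prime number `ℓ`, and `V`
the direct sum.  Let `𝔤` be the Lie algebra, over `ℚ_ℓ`, of the motivic Galois group of the sum of the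
`M i` (the group of the automorphisms which fix all algebraic classes on the tensor constructions, if
numerical and homological equivalence agree for them, or all motivated classes, or all absolute
Hodge classes), or of any group with the following properties.  The property `Motivic ρ 𝔤` (structure
`IsMotivic`) states the properties of `𝔤` which are used: it is a Lie algebra, it respects the direct
sum, it is reductive (trace form nondegenerate, completely reducible on `V`), it consists of all
endomorphisms which kill the tensors killed by `𝔤`, and these tensors (the algebraic, motivated, ...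
classes) are Tate tensors (fixed by a subgroup of finite index of the Galois group).  Nothing is
assumed on the type of the group, or on multiplicities of weights or Frobenius eigenvalues.

Let `J` be a set of indices such that `𝔤` acts commutatively on the `V i` for `i` in `J`; it can be
empty, but usually one of the `M i`, `i ∈ J`, is the Tate motive `ℚ(1)`, and the others have complex
multiplication.

Let `U` be an **arbitrary** representation of the Galois group, for example `H^b(Y, ℚ_ℓ(c))` for an
arbitrary smooth variety `Y` over `k`, **proper or not**, or one of its tensor constructions; `U` need not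
be semisimple, pure, or continuous.

The representations come from a profinite group `Γ` (the Galois group of `k` or the fundamental group
of a model of `k`).  The rank of `𝔤` is at most `r`.  We suppose one of the following conditions:

(0) (`HasGoodPrimes`) for a homomorphism `s` from the Galois group of a number field `F` to `Γ` (given by
a closed point of the generic fibre of the model; the identity if `k = F`) there are three primes
`p ≠ ℓ`, unramified in `F`, such that the fibre at `s` of the `M i` has good reduction at the places above
`p`, with pure Frobenius polynomials in `ℚ[X]`, and at ONE place `v₀` above one of these primes `p₀`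
there are `r` multiplicatively independent Frobenius eigenvalues; if there are several places above
`p₀` they are independent (`IndependentPlaces`; nothing is to be supposed if `F = ℚ`, or if there is
only one place above `p₀`).  Here the semisimplicity of the Galois representations is NOT assumed.

(0') the Galois representation on `V` is semisimple (this is so for abelian varieties and K3 surfaces, by
the theorems of Faltings, Tankeev and André), and there is one element `γ` of `Γ`, for example a
Frobenius element at a closed point of the model, with rational characteristic polynomials and with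
`r` multiplicatively independent eigenvalues.

And for `U` we suppose only (`Unrelated`): the eigenvalues on `U` of the Frobenius elements at `v₀` (in
(0)) or of `γ` (in (0')) are roots of a polynomial `f` with rational coefficients, and the numbers which
are both products of powers of roots of `f`, and products of powers of Frobenius eigenvalues on `V`,
are, up to a power, products of powers of the eigenvalues on the `V i`, `i ∈ J` (so they are roots of
integral powers of `q` if there is only the Tate motive in `J`).

**Theorem.**  The representation `V` is semisimple for all subgroups of finite index of `Γ`.  Let `X` be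
an endomorphism of `V` which kills all Tate tensors on `V`, and is zero on the `V i`, `i ∈ J`.  Then `X`,
extended by zero to `U`, kills **all Tate tensors on `V ⊕ U`** (`KillsOnSum`: the tensors of any degree
on `V ⊕ U` and its dual space which are fixed by a subgroup of finite index); and `X` kills all
`U`-valued Tate tensors (`KillsValued`: the multilinear maps with values in `U`, in any number of
variables in `V` and its dual space, which are equivariant under a subgroup of finite index).

This is the tannakian form of the statement that the monodromy group of `V ⊕ U` contains the identity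
component of the subgroup of the monodromy group of `V` which acts trivially on the `M i`, `i ∈ J`.
So all coordinates of the `U`-valued Tate tensors are tensors on `V` which are killed by all these `X`.
If there is only the Tate motive in `J`, these are the Tate tensors on `V` up to twists (the remaining
part of the Lie algebra acts through the weight), and the Tate classes on the products of tensor
constructions of `M` with `Y` are the linear combinations of products of Tate classes on twists of
tensor constructions of `M`, and of Tate classes on `Y`.  So the Tate conjecture for the products, in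
all codimensions, is reduced to the Tate conjecture for the tensor constructions of `M` and for `Y`,
whenever one Frobenius element shows that they are unrelated.  For example, let `A` be an abelian
variety with a maximal Frobenius torus at `v₀`, for which the Mumford-Tate conjecture and the
Hodge conjecture for all powers are known; then the Tate conjecture for `A^m × Y`, for all `m` and all
smooth `Y` unrelated to `A` at `v₀`, is equivalent to the Tate conjecture for `Y`.

Relation to the starting files and the other files in this folder.  They treat the products of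
abelian varieties, and of varieties built from K3 surfaces, with smooth varieties, by Frobenius
elements which generate the monodromy group (up to twists): the only Tate classes allowed on the
abelian variety are those fixed by the Frobenius torus.  Here the motivic group can be any
reductive group, and only the rank is attained by one Frobenius torus.

The proof.  Let `L` be the Lie algebra of the endomorphisms of `V ⊕ U` which kill all Tate tensors
and preserve all subspaces stable under open subgroups, `L'` its image in the endomorphisms of `V`, and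
`N` the part of `L` which acts only on `V`; `N` is an ideal of `L'`.  By (0) and the `ℓ`-adic six
exponentials theorem `V` is semisimple.  The torus `t` of the Frobenius element is contained in `L'`
and is a maximal torus of `𝔤`.  By these facts `L'` is reductive, it has the same commutant as the
Lie algebra of the Tate tensors of `V`, and it is equal to it.  By `Unrelated` the part of `t` which is
zero on the `V i`, `i ∈ J`, is in `N`.  It contains the coroots, and so the ideal `N` contains all root
vectors of `L'`.
-/

set_option autoImplicit false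

namespace Pool.Agent.Results.MP_2a05c8_ag.MotivesTimesSmooth

open NumberField IsDedekindDomain Polynomial Module Pool.Agent.Y114.TF Pool.Agent.Y114.GF
  Pool.Agent.Y114.MU Pool.Agent.Y114.RM Pool.Agent.H204R3.GP

section general

variable {k : Type} [Field k] {V : Type} [AddCommGroup V] [Module k V] {U : Type} [AddCommGroup U]
  [Module k U] {Γ : Type} [Group Γ] (ρ : Representation k Γ V) (σ : Representation k Γ U)

/-- `W` is stable under the action of `Γ`. -/
def StableRep (W : Submodule k V) : Prop := ∀ γ, ∀ x ∈ W, ρ γ x ∈ W

/-- The representation is semisimple. -/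
def SemisimpleAction : Prop :=
  ∀ W : Submodule k V, StableRep ρ W → ∃ W' : Submodule k V, StableRep ρ W' ∧ IsCompl W W'

/-- The direct sum of two representations. -/
def addRep : Representation k Γ (V × U) where
  toFun γ := (ρ γ).prodMap (σ γ)
  map_one' := by rw [map_one, map_one]; rfl
  map_mul' a b := by rw [map_mul, map_mul]; rfl

/-- The restriction of a representation by a homomorphism. -/
def restrictRep {Δ : Type} [Group Δ] (s : Δ →* Γ) : Representation k Δ V := ρ.comp s

/-- The elements of `𝔥` commute. -/
def Commutative (𝔥 : Submodule k (End k V)) : Prop := ∀ X ∈ 𝔥, ∀ Y ∈ 𝔥, X * Y = Y * X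

/-- `X` kills all Tate tensors. -/
def KillsAllTate (X : End k V) : Prop :=
  ∀ (m : ℕ) (φ : Tensor k V m), TateTensor ρ φ → KillsTensor X φ

/-- `X`, extended by zero to `U`, kills all Tate tensors on `V ⊕ U`. -/
def KillsOnSum (X : End k V) : Prop := KillsAllTate (addRep ρ σ) (X.prodMap (0 : End k U))

/-- `φ` is a `U`-valued Tate tensor. -/
def TateValued {m : ℕ} (φ : MultilinearMap k (fun _ : Fin m => V × Dual k V) U) : Prop :=
  ∃ Δ : Subgroup Γ, Δ.FiniteIndex ∧ ∀ γ ∈ Δ, ∀ v,
    φ (fun l => grp (ρ γ) (ρ γ⁻¹) (v l)) = σ γ (φ v)

/-- `X` kills all `U`-valued Tate tensors. -/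
def KillsValued (X : End k V) : Prop :=
  ∀ (m : ℕ) (φ : MultilinearMap k (fun _ : Fin m => V × Dual k V) U), TateValued ρ σ φ →
    ∀ v, ∑ l, φ (Function.update v l (lie X (v l))) = 0

end general

section groups

/-- The group generated by the nonzero complex roots of the polynomials in `S`. -/
def rootGroup (S : Set ℚ[X]) : Subgroup ℂˣ :=
  Subgroup.closure {u | ∃ p ∈ S, aeval (u : ℂ) p = 0}

/-- The common elements of the groups generated by the roots of the `P i` and of `f` come, up to a
power, from the `P i` for `i ∈ J`. -/
def UnrelatedPoly {ι : Type} (P : ι → ℚ[X]) (J : Set ι) (f : ℚ[X]) : Prop :=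
  ∀ x ∈ rootGroup (Set.range P), x ∈ rootGroup {f} → ∃ m : ℕ, 0 < m ∧ x ^ m ∈ rootGroup (P '' J)

end groups

section defs

variable {Γ : Type} [Group Γ] {ι : Type} {n : ι → ℕ} {ℓ : ℕ} [Fact ℓ.Prime]
  (ρ : Reps Γ n ℓ) (𝔤 : EndSpace n ℓ) {U : Type} [AddCommGroup U] [Module ℚ_[ℓ] U]

/-- The eigenvalues of the elements of `S` on `U` are roots of one polynomial which is unrelated
to the `P i`. -/
def Unrelated (σ : Representation ℚ_[ℓ] Γ U) (P : ι → ℚ[X]) (J : Set ι) (S : Set Γ) : Prop :=
  ∃ f : ℚ[X], (∀ γ ∈ S, aeval (σ γ) (f.map (algebraMap ℚ ℚ_[ℓ])) = 0) ∧ UnrelatedPoly P J f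

/-- The Lie algebra acts commutatively on the summands with indices in `J`. -/
def CommutativeOn [DecidableEq ι] (J : Set ι) : Prop :=
  ∀ i ∈ J, Commutative (imageIn 𝔤 i)

/-- The sum of the representations is semisimple. -/
def IsSemisimpleSum : Prop := SemisimpleAction (sumRep ρ)

/-- (0') for an element `γ` with rational characteristic polynomials -/
def HasElement (σ : Representation ℚ_[ℓ] Γ U) (r : ℕ) (J : Set ι) : Prop :=
  ∃ (γ : Γ) (Q : ι → ℚ[X]), (∀ i, HasPoly ρ i γ (Q i)) ∧ IndepRoots r (Set.range Q) ∧
    Unrelated σ Q J {γ}

variable [DecidableEq ι]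

/-- `X` is zero on the summands with indices in `J`. -/
def ZeroOn (J : Set ι) (X : End ℚ_[ℓ] (∀ i, Fin (n i) → ℚ_[ℓ])) : Prop :=
  ∀ i ∈ J, ∀ x : Fin (n i) → ℚ_[ℓ], X (Pi.single i x) i = 0

/-- the conclusion -/
def Splits (σ : Representation ℚ_[ℓ] Γ U) (J : Set ι) : Prop :=
  ∀ X : End ℚ_[ℓ] (∀ i, Fin (n i) → ℚ_[ℓ]), KillsAllTate (sumRep ρ) X → ZeroOn J X →
    KillsOnSum (sumRep ρ) σ X ∧ KillsValued (sumRep ρ) σ X

end defs

section primes

variable {ι : Type} {n : ι → ℕ} {ℓ : ℕ} [Fact ℓ.Prime]

/-- `T` consists of at least three primes different from `ℓ` and unramified in `F`, and there is good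
reduction at the places above them, with the polynomials `P v i`. -/
structure GoodAbove {F : Type} [Field F] [NumberField F] (ρ : Reps Gal(AlgebraicClosure F/F) n ℓ)
    (w : ι → ℤ) (P : HeightOneSpectrum (𝓞 F) → ι → ℚ[X]) (T : Set ℕ) : Prop where
  three : 3 ≤ T.encard
  primes : ∀ p ∈ T, p.Prime ∧ p ≠ ℓ ∧ UnramifiedIn F p
  good : ∀ p ∈ T, ∀ v, Above v p → ∀ i, GoodReduction ρ i (w i) v (P v i)

/-- The places above `p₀` are independent, and at one of them, `v₀`, there are `r` multiplicatively
independent Frobenius eigenvalues, and `U` is unrelated to the `V i`. -/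
def HasRankAbove {F : Type} [Field F] [NumberField F] {U : Type} [AddCommGroup U]
    [Module ℚ_[ℓ] U] (σ : Representation ℚ_[ℓ] Gal(AlgebraicClosure F/F) U)
    (P : HeightOneSpectrum (𝓞 F) → ι → ℚ[X]) (r p₀ : ℕ) (J : Set ι) : Prop :=
  IndependentPlaces P p₀ ∧ ∃ v₀, Above v₀ p₀ ∧ IndepRoots r (Set.range (P v₀)) ∧
    Unrelated σ (P v₀) J {g | ∃ Q, PrimeOver Q v₀ ∧ IsFrobAt Q (q v₀) g⁻¹}

/-- (0) for a number field: three primes of good reduction and one Frobenius torus of rank `r` -/
def HasGoodPrimesOver {F : Type} [Field F] [NumberField F]
    (ρ : Reps Gal(AlgebraicClosure F/F) n ℓ) {U : Type} [AddCommGroup U]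
    [Module ℚ_[ℓ] U] (σ : Representation ℚ_[ℓ] Gal(AlgebraicClosure F/F) U) (r : ℕ) (J : Set ι) :
    Prop :=
  ∃ (w : ι → ℤ) (P : HeightOneSpectrum (𝓞 F) → ι → ℚ[X]) (T : Set ℕ),
    GoodAbove ρ w P T ∧ ∃ p₀ ∈ T, HasRankAbove σ P r p₀ J

/-- The homomorphisms from the Galois group of `F` to `Γ`. -/
def GaloisHom (F : Type) [Field F] (Γ : Type) [Group Γ] : Type :=
  Gal(AlgebraicClosure F/F) →* Γ

/-- (0) at a specialization `s` -/
def HasGoodPrimesAt {F : Type} [Field F] [NumberField F] {Γ : Type} [Group Γ] [TopologicalSpace Γ]
    (s : GaloisHom F Γ) (ρ : Reps Γ n ℓ) {U : Type} [AddCommGroup U] [Module ℚ_[ℓ] U]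
    (σ : Representation ℚ_[ℓ] Γ U) (r : ℕ) (J : Set ι) : Prop :=
  Continuous (show Gal(AlgebraicClosure F/F) →* Γ from s) ∧
    HasGoodPrimesOver (restrictTo ρ s) (restrictRep σ s) r J

/-- (0) at some specialization -/
def HasGoodPrimes {Γ : Type} [Group Γ] [TopologicalSpace Γ] (ρ : Reps Γ n ℓ) {U : Type}
    [AddCommGroup U] [Module ℚ_[ℓ] U] (σ : Representation ℚ_[ℓ] Γ U) (r : ℕ) (J : Set ι) : Prop :=
  ∃ (F : Type) (_ : Field F) (_ : NumberField F) (s : GaloisHom F Γ), HasGoodPrimesAt s ρ σ r J

end primes

theorem result {Γ : Type} [Group Γ] [TopologicalSpace Γ] [IsTopologicalGroup Γ] [CompactSpace Γ]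
    {ι : Type} [Fintype ι] [DecidableEq ι] {n : ι → ℕ} {ℓ : ℕ} [Fact ℓ.Prime]
    -- the `ℓ`-adic realizations
    (ρ : Reps Γ n ℓ) (hρ : Conts ρ)
    -- the Lie algebra of the motivic Galois group, and the abelian summands
    (𝔤 : EndSpace n ℓ) (h𝔤 : Motivic ρ 𝔤) (r : ℕ) (hrank : RankLE 𝔤 r) (J : Set ι)
    (hJ : CommutativeOn 𝔤 J)
    -- an arbitrary representation
    {U : Type} [AddCommGroup U] [Module ℚ_[ℓ] U] [FiniteDimensional ℚ_[ℓ] U]
    (σ : Representation ℚ_[ℓ] Γ U)
    -- three primes of good reduction and a maximal Frobenius torus, or semisimplicity and an element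
    (h0 : HasGoodPrimes ρ σ r J ∨ IsSemisimpleSum ρ ∧ HasElement ρ σ r J) :
    Semisimple ρ ∧ Splits ρ σ J := by
  have h𝔤' : IsMotivic ρ 𝔤 := h𝔤
  have key : Semisimple ρ ∧ ∀ X : End ℚ_[ℓ] (∀ i, Fin (n i) → ℚ_[ℓ]), KillsAllTate (sumRep ρ) X →
      (∀ i ∈ J, blk i X = 0) →
      X.prodMap (0 : End ℚ_[ℓ] U) ∈ LT (Pool.Agent.Q65.KL.sumR (sumRep ρ) σ) := by
    have hJ' : ∀ i ∈ J, ∀ X ∈ (show Submodule ℚ_[ℓ] (End ℚ_[ℓ] (∀ i, Fin (n i) → ℚ_[ℓ])) from 𝔤),
        ∀ Y ∈ (show Submodule ℚ_[ℓ] (End ℚ_[ℓ] (∀ i, Fin (n i) → ℚ_[ℓ])) from 𝔤),
        blk i X * blk i Y = blk i Y * blk i X := fun i hi X hX Y hY =>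
      hJ i hi _ (Submodule.mem_map_of_mem hX) _ (Submodule.mem_map_of_mem hY)
    rcases h0 with h0 | h0
    · obtain ⟨F, _, _, s', hs, w, P, T, ⟨hT3, hT, hP⟩, p₀, hp₀, hind, v₀, hv₀, hr, f, hf, hf'⟩ := h0
      let s : Gal(AlgebraicClosure F/F) →* Γ := s'
      obtain ⟨hss, h2⟩ := Pool.Agent.Q65.KL.main_struct inputs inputs2 inputs3.rank ρ hρ 𝔤 h𝔤 s hs P
        T hT3 hT (fun p hp v hv => goodPlace_of (restrictTo ρ s) (hP p hp v hv)) hp₀ hind hv₀ r
        (independentRoots_range hr) hrank
      refine ⟨hss, fun X hX hXJ => ?_⟩
      obtain ⟨Q₀, σ₀, hQ₀, hQ₀v, hσ₀⟩ := Pool.Agent.W571.FM.frob_cm v₀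
      refine Pool.Agent.Q65.KL.local_times ρ σ inputs inputs2 hρ h𝔤 (s σ₀⁻¹) (P v₀)
        (fun i => (goodPlace_of (restrictTo ρ s) (hP p₀ hp₀ v₀ hv₀)).frobenius i Q₀
          ⟨hQ₀.isPrime, hQ₀v⟩ σ₀ hσ₀)
        (independentRoots_range hr) hrank (fun W hW => ?_) f
        (hf σ₀⁻¹ ⟨Q₀, ⟨hQ₀.isPrime, hQ₀v⟩, by rw [inv_inv]; exact hσ₀⟩) J hJ' hf' X
        ((h2.kills X).2 hX) hXJ
      obtain ⟨W', hW', hc⟩ := hss ⊤ inferInstance W (fun γ _ => hW γ)
      exact ⟨W', fun γ => hW' γ trivial, hc⟩
    · obtain ⟨hss, γ, Q, hQ, hr, f, hf, hf'⟩ := h0
      obtain ⟨hss', h2⟩ := Pool.Agent.Q65.KL.local_struct ρ inputs inputs2 inputs3.rank hρ h𝔤 γ Q hQ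
        (independentRoots_range hr) hrank hss
      exact ⟨hss', fun X hX hXJ => Pool.Agent.Q65.KL.local_times ρ σ inputs inputs2 hρ h𝔤 γ Q hQ
        (independentRoots_range hr) hrank hss f (hf γ rfl) J hJ' hf' X ((h2.kills X).2 hX) hXJ⟩
  refine ⟨key.1, fun X hX hXJ => ?_⟩
  have h1 := key.2 X hX fun i hi => LinearMap.ext fun x => hXJ i hi x
  exact ⟨h1.2, fun m φ hφ v => Pool.Agent.Q65.KL.inV_kills (sumRep ρ) σ h1 φ hφ v⟩

end Pool.Agent.Results.MP_2a05c8_ag.MotivesTimesSmooth
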