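import Pool.Agent.Q59.KT.All

/-!
# Tate classes on the products of varieties built from K3 surfaces with arbitrary smooth varieties

Over a finite field, let `X` be a smooth projective variety and `T` a part of `H^{2 b}(X)` on which Frobenius acts (up to
powers) by `q ^ b` times the conjugates of a number `α` in a CM field `E` (for example the transcendental cohomology
of a K3 surface of finite height), with the Tate conjecture for `X × X` in one codimension, or multiplicity one and the
Lefschetz standard conjecture for `X`. A smooth projective variety `Z` is *built from `n` copies* of `T` if its cohomology is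
spanned by products of at most `n` images of elements of `T` under algebraic correspondences, and of classes of cycles
(powers of `X`, Hilbert schemes of points, moduli spaces of sheaves on K3 surfaces, and their products).

Let `U` be a smooth variety, **not necessarily proper**, `V = H^b(U)` (or any other cohomology group of any variety) with
its Frobenius operator `G`. We assume only a condition on the slopes of the eigenvalues of `G`. Then the classes in
`H(Z) ⊗ V` on which some power of Frobenius is the multiplication by the power of `q ^ c` are exactly the linear combinations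
of the products `y ⊗ v` of classes `y` of cycles of codimension `i` on `Z` and of such classes `v` in `V` for `q ^ (c - i)`, and the same
holds for generalised eigenvectors. So the Tate conjecture (and the semisimplicity of the eigenvalue) for `Z × U` follows from
the Tate conjecture (and the semisimplicity) for `U`, in all codimensions. If `U` is a point it is the Tate conjecture for `Z`.
-/

set_option autoImplicit false

open CategoryTheory AlgebraicGeometry NumberField
open scoped TensorProduct

universe u v

namespace Pool.Agent.Results.MP_2a05c8_ag.BuiltFromKThreeTimesSmooth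

open Pool.Agent.H914 Pool.Agent.H914.VarClass Pool.Agent.H914.VarClass.Obj
  Pool.Agent.H914.WeilCohomology Pool.Agent.W534 Pool.Agent.W517.K3 Pool.Agent.Y138.KC
  Pool.Agent.Y103.Hk Pool.Agent.Y103.Sh Pool.Agent.W458.RK

/-- For every finite-dimensional space `V` with an operator `G` all of whose eigenvalues have the property `PP`, and the
Frobenius operator `F` of `Z` over the field with `q = p ^ (Φ.e Z * s)` elements: the elements of `H(Z) ⊗ V` killed by
`((F ⊗ G) ^ M - q ^ (c M)) ^ a` for some `M > 0` are the combinations of the products `y ⊗ v` of classes `y` of cycles of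
codimension `i` and of elements `v` killed by `(G ^ M - q ^ ((c - i) M)) ^ a` for some `M > 0`, for all integers `c` and all `a`. -/
def TateTimesAll {k : Type u} [Field k] {𝒱 : VarClass k} {ops : CycleOps 𝒱}
    {W : WeilCohomology.{u, v} ops} {p : ℕ} (Φ : FrobSystem W p) (PP : W.K → Prop) (Z : 𝒱.Obj) : Prop :=
  ∀ s : ℕ, 0 < s → ∀ (V : Type v) [AddCommGroup V] [Module W.K V] [Module.Finite W.K V]
    (G : Module.End W.K V), (∀ ν, G.HasEigenvalue ν → PP ν) →
      TensorSplits (W.map (Pool.Agent.W534.iter (Φ.Fr Z) s)).toLinearMap G ((p : W.K) ^ (Φ.e Z * s))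
        fun i => {y | ∃ z, Z.IsCyc i z ∧ y = W.cl Z z}

/-- The numerical condition on the half degree `d` of the field, the local degree `m` and the number of copies `n`. -/
def Good (d m n : ℕ) : Prop :=
  d ≤ 11 ∧ ((n ≤ 3 ∧ (d, m) ∉ exceptionalPairs) ∨ (Odd m ∧ (d, m) ∉ exceptionalOddPairs) ∨
    (d.Prime ∧ n < d))

/-- **Tate classes on the products of varieties built from one piece of K3 type with arbitrary smooth varieties.** -/
theorem result {k : Type u} [Field k] {𝒱 : VarClass k} {ops : CycleOps 𝒱}
    (W : WeilCohomology.{u, v} ops) [IsAlgClosed W.K] (p : ℕ) [Fact p.Prime]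
    (Φ : FrobSystem W p) (ι : AlgebraicClosure ℚ →+* PadicAlgCl p) (X Z : 𝒱.Obj)
    (E : Type) [Field E] [NumberField E] [IsCMField E] (b e n : ℕ) (α : E) (he : 0 < e)
    (hX : TateIn Φ (X.prod X) (2 * b) ∨ SimpleLefschetz Φ X b e α)
    (hZ : IsBuiltFrom Φ X b e α n Z) :
    (∀ a d, IsK3Frobenius p a α → Module.finrank ℚ E = 2 * d → Good d (localDegree p α) n →
      ∀ L : IntermediateField ℚ (AlgebraicClosure ℚ), IsIndependentField E L →
        TateTimesAll Φ (fun ν => SlopeRoot ι L ν) Z) ∧
    (IsFreeNumber ι α →
      ∀ (L₀ : IntermediateField ℚ (AlgebraicClosure ℚ))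
        (𝓛 : Set (IntermediateField ℚ (AlgebraicClosure ℚ))), IsStable L₀ →
        SmallIntersection E L₀ n → (∀ L ∈ 𝓛, IsAllowed E L₀ L) →
        TateTimesAll Φ (fun ν => IsSlopeProduct ι 𝓛 ν) Z) := by
  refine ⟨fun a d hα hd hgood L hL => ?_, fun hα L₀ 𝓛 hL₀ hsmall h𝓛 => ?_⟩
  · have hP : PairsAlg Φ X b e α := by
      rcases hX with h | h
      · exact pairs_of_tate hα.unitary he h
      · exact pairs_of_simple hα.unitary hα.powers h
    refine Pool.Agent.Q59.KT.tateTimesAll_of (tateTimesP_built hP he hZ (zeroProp_good hα hd rfl hgood hL) (ι := ι)) ?_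
    rintro ν ⟨Q, hQ, hLQ, hν⟩
    exact ⟨Q, ν, 1, one_pos, hQ, hLQ, hν, (pow_one ν).symm⟩
  · have hR := noRel_free hα
    have hpow := Pool.Agent.Y103.Sq.gen_of_noRel hR
    have hP : PairsAlg Φ X b e α := by
      rcases hX with h | h
      · exact pairs_of_tate hR.unitary he h
      · exact pairs_of_simple hR.unitary hpow h
    exact Pool.Agent.Q59.KT.tateTimesAll_of (tateTimesP_many hP he hZ hR hL₀ (largeOrbits_of hL₀ hsmall)
      (fun L hL => allowed_conj (h𝓛 L hL))) fun ν hν => hν

end Pool.Agent.Results.MP_2a05c8_ag.BuiltFromKThreeTimesSmooth
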