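import Mathlib
import Pool.Agent.Q70.SQ.Ord

/-!
# The Tate conjecture for the products of abelian varieties with smooth varieties whose slopes have a
small mean square deviation

Let `k₀` be a finitely generated field and `A` an abelian variety over `k₀`, of any dimension. Let `γ`
be a Frobenius element of the Galois group `Γ` of `k₀` at **one** place of good reduction, the residue
field having `q = p ^ a` elements, for which the characteristic polynomial on the Tate module
`V = V_ℓ (A)` is the product of the minimal polynomials of Weil numbers `π i` (`i` in a finite set)
which generate CM fields `F i`. We suppose (the generic case; the first condition is true, for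
example, if the Galois group of the normal closure of `F i` consists of all permutations of the
embeddings compatible with the complex conjugation, or if only some automorphism exchanges one
embedding with its complex conjugate and fixes all the others):

* the functions `n` on the complex embeddings of `F i` with `n (conj φ) = - n φ` are an absolutely
  irreducible representation of the automorphisms of `ℂ` (`OddAbsolutelyIrreducible`), and there are
  no equivariant maps between those of `F i` and `F i'` for `i ≠ i'` (`Unrelated`);
* no `π i` is supersingular (`HasOtherSlope`).

Let `U` be an **arbitrary smooth variety** over `k₀`, proper or not, and `M` a subquotient of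
`H^b(U, ℚ_ℓ(i))` (or any other representation of `Γ`) such that the eigenvalues of `γ` on `M` are
roots of a polynomial `f ≠ 0` with rational coefficients (for example if `U` has a good model at the
place). For a root `α` of `f` of weight `w`
(`|α| = q ^ (w / 2)`) let `d (α)` be the mean of `(s - w / 2) ^ 2` over the slopes `s` of all
`p`-adic conjugates of `α` (`deviation`, up to the factor `(log q) ^ 2`), and similarly `d (π i)`
with `w = 1`; so `d (π i) = 1 / 4` if `π i` is ordinary (second part of the theorem). We suppose
that for all roots `α` of `f` and all `i`

* `α` is unrelated to `F i` (`UnrelatedTo`: a function `n` as above on the embeddings of `F i` which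
  is invariant under all automorphisms of `ℂ` that fix a power of `α` is zero), **or**
* `d (α) < d (π i)`, **or**
* the weight of `α` is even and `d (α) < d (π i) + d (π i')` for all `i'` (`SmallDeviation`).

Then (`ClassesSplit`) **the classes in `H^j(A ^ r) ⊗ M` which are fixed by an open subgroup of `Γ` are
zero for odd `j`, and linear combinations of products of `m` Tate classes of degree two on `A ^ r`
(that is, of divisor classes, by Tate, Zarhin and Faltings) and of Tate classes in `M(-m)` for
`j = 2 m`**, for all `r`. The classes in `H^j(A ^ r) ⊗ M` are the alternating maps of `j` variables
from `V ^ r` to `M`. So for all these `A` and `U` the Tate conjecture for `A ^ r × U`, for all `r`, in all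
codimensions, over all finite extensions, follows from the Tate conjecture for `U` (for
cohomology groups `H^b(U)` which are not pure one applies this to `M = W_b H^b(U)`). The hypotheses on
`V` (`IsPolarised`) are the Weil pairing and the semisimplicity (Tate, Zarhin, Faltings).

Examples, for `A` with ordinary `π i`. The conditions on `α` hold for all `U` such that the slopes of
Frobenius on the (pure) cohomology `H^(2 v)(U)` satisfy `|s - v| < 1 / √2`, for example if they are all
between `v - 1 / 2` and `v + 1 / 2`. In general they hold for all `α` of weight `2 v` whose degree
over `ℚ` is more than `2 ∑ (s - v) ^ 2`, the sum over all conjugates. As the Newton polygon lies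
above the Hodge polygon, for the second cohomology of a surface of geometric genus `g` it suffices
that all eigenvalues which are not `q` times a root of unity have degree more than `4 g` (more than
four for K3 surfaces). The conditions of this kind do not exclude any relation between the Galois
groups of `A` and `U`: `ℚ(α)` may be contained in a field `F i`, or in its Galois closure.

Relation to the starting files. `AllCMTypesTimesSmooth` (this folder) contains the theorem for all
CM fields and all `π i` of maximal angle rank, if all `α` are unrelated to the `F i`; this is the
first alternative above. `AbelianTimesKThree` (this folder) treats varieties `U` over a finite field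
with small deviations, for `π i` such that any two pairs of conjugate embeddings can be separated
by an automorphism (flips). New here are the second and third alternative over all finitely generated
fields and for all absolutely irreducible fields, without flips, for arbitrary representations `M`.

The proof. A multiplicative relation between `α` and a product of conjugates of the `π i` gives, for
each automorphism `σ` of a Galois closure `L`, the linear relation
`s (σ α) - w / 2 = ∑ x, n x (s (σ x) - 1 / 2)` between slopes, where the sum is over one embedding `x` of
each conjugate pair and `n x` is the difference of the multiplicities of `x` and `bar x`. The second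
moments `∑ σ, (s (σ x) - 1 / 2) (s (σ y) - 1 / 2)` are an invariant form on the odd functions; it is
real valued, but all its compositions with rational functionals `ℝ → ℚ` are rational invariant
forms, and so the slopes at different pairs `x`, `y` are uncorrelated, by Schur's lemma. Hence
`d (α) = ∑ x, (n x) ^ 2 d (π x)`. If the weight is even, so is the sum of all multiplicities,
and a single `n x = ± 1` is impossible. So all `n x` are zero, and the theorem follows from the
semisimplicity, as in the starting files (H204R3, Y137).
-/

set_option autoImplicit false

namespace Pool.Agent.Results.MP_2a05c8_ag.SmallSlopeDeviation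

open NumberField Module IntermediateField Pool.Agent.Y137.MV Pool.Agent.Y137.SL
  Pool.Agent.Y1.CT Pool.Agent.Q70.SQ

/-- The Tate classes on `A ^ r × U` come from `A ^ r` in degree two and from `U`, whenever the
characteristic polynomial of `γ` on `V` is the product of the minimal polynomials of the `π i` and
each eigenvalue of `γ` on `M` is unrelated to the field `F i` or has small deviation, for all `i`. -/
def SplitsFor (p : ℕ) [Fact p.Prime] (a : ℕ) {I : Type} [Fintype I] (F : I → Type)
    [∀ i, Field (F i)] [∀ i, NumberField (F i)] [∀ i, IsCMField (F i)] (π : ∀ i, F i) : Prop :=
  ∀ (k : Type) [Field k] [CharZero k] (V : Type) [AddCommGroup V] [Module k V]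
    [FiniteDimensional k V] (M : Type) [AddCommGroup M] [Module k M] [FiniteDimensional k M]
    (Γ : Type) [Group Γ] (ρ : Representation k Γ V) (τ : Representation k Γ M) (χ : Γ →* k)
    (γ : Γ), IsPolarised ρ χ γ p a π →
    ∀ f : Polynomial ℚ, f ≠ 0 → Polynomial.aeval (τ γ) (f.map (algebraMap ℚ k)) = 0 →
    (∀ α : ℂ, Polynomial.aeval α f = 0 → ∀ i, UnrelatedTo (F i) α ∨ SmallDeviation p a π α i) →
    ClassesSplit ρ χ τ

/-- **The Tate conjecture for `A ^ r × U` follows from the Tate conjecture for `U`, for the abelian
varieties `A` with one Frobenius element with absolutely irreducible, unrelated CM fields, and all
smooth varieties `U` whose slopes have a small mean square deviation (or whose eigenvalues are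
unrelated to the fields). The deviation of ordinary Weil numbers is `1 / 4`.** -/
theorem result :
    (∀ (p : ℕ) [Fact p.Prime] (a : ℕ) (I : Type) [Fintype I] (F : I → Type)
      [∀ i, Field (F i)] [∀ i, NumberField (F i)] [∀ i, IsCMField (F i)] (π : ∀ i, F i),
      0 < a → (∀ i, ℚ⟮π i⟯ = ⊤) →
      (∀ i, π i * IsCMField.complexConj (F i) (π i) = (p : F i) ^ a) →
      (∀ i, OddAbsolutelyIrreducible (F i)) → (∀ i i', i ≠ i' → Unrelated (F i) (F i')) →
      (∀ i, HasOtherSlope p a (π i)) → SplitsFor p a F π) ∧
    (∀ (p : ℕ) [Fact p.Prime] (a : ℕ) (F : Type) [Field F] [NumberField F] (π : F),
      IsOrdinary p a π → weilDeviation p a π = (a * Real.log p) ^ 2 / 4) := by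
  refine ⟨?_, ?_⟩
  · intro p _ a I _ F _ _ _ π ha hgen hw habs hun hns k _ _ V _ _ _ M _ _ _ Γ _ ρ τ χ γ hp f hf0
      hfγ hf
    exact split_of_deviation ha hgen hw habs hun hns ρ τ χ γ hp f hf0 hfγ hf
  · intro p _ a F _ _ π h
    exact weilDeviation_ordinary h

end Pool.Agent.Results.MP_2a05c8_ag.SmallSlopeDeviation
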