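import Mathlib
import Pool.Agent.Y1.TS.Split
import Pool.Agent.Q70.HN.Deg
import Pool.Agent.Q70.MM.Main
import Pool.Agent.Q70.MM.PRank

/-!
# The Tate conjecture for the products of smooth varieties with two abelian varieties whose CM fields
may be related

Let `k₀` be a finitely generated field and `A` an abelian variety over `k₀`, of any dimension. Let `γ`
be a Frobenius element of the Galois group `Γ` of `k₀` at **one** place of good reduction, the residue
field having `q = p ^ a` elements, for which the characteristic polynomial on the Tate module
`V = V_ℓ (A)` is the product of the minimal polynomials of Weil numbers `π i` (`i` in a finite set)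
which generate CM fields `F i` and are not supersingular. We suppose that the functions `n` on the
complex embeddings of `F i` with `n (conj φ) = - n φ` are an absolutely irreducible representation of
the automorphisms of `ℂ` (`OddAbsolutelyIrreducible`; this is the generic case).

The theorems of the starting files, and those of this team, suppose that the fields `F i` are pairwise
unrelated (there are no equivariant maps between the odd functions for `F i` and `F i'`). Here the
indices may form pairs `i`, `β i` for which **the fields `F i` and `F (β i)` are related in any way,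
for instance equal**; only the slopes or the dimensions have to be different in the following sense
(`RelatedPairs`, `Distinguished`). Let `d (π i)` be the mean of `(s - 1 / 2) ^ 2` over the slopes `s` of
all `p`-adic conjugates of `π i` (`weilDeviation`, up to the factor `(log q) ^ 2`). For `β i ≠ i`

* `[F i : ℚ] ≠ [F (β i) : ℚ]`, or
* `[F i : ℚ]` is twice an odd number and `d (π i) / d (π (β i))` is **not the square** of a rational
  number, or
* `[F i : ℚ]` is four times an odd number and `d (π i) / d (π (β i))` is **not the sum of the squares of
  two** rational numbers.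

**Theorem** (first part). Let `U` be an arbitrary smooth variety over `k₀`, proper or not, and `M` a
subquotient of its cohomology (or any representation of `Γ`) such that the eigenvalues of `γ` on `M`
are roots of a rational polynomial all of whose complex roots are unrelated to the fields `F i`
(`UnrelatedTo`) or have smaller degree than `F i`. Then (`ClassesSplit`) the classes in
`H^j(A ^ r) ⊗ M` which are fixed by an open subgroup of `Γ` are zero for odd `j`, and linear
combinations of products of `m` Tate classes of degree two on `A ^ r` (that is, of divisor classes, by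
Tate, Zarhin and Faltings) and of Tate classes in `M(-m)` for `j = 2 m`, for all `r`. So for these
`A` the Tate conjecture for `A ^ r × U` (`U` with eigenvalues as above), in all codimensions, over
all finite extensions, follows from the Tate conjecture for `U`; for a point `U` this is **the Tate
conjecture for all powers of `A`**.

**Second part.** Let the `π i` have only the slopes `0`, `1 / 2`, `1`, with `p`-rank `f i > 0`
(`HasPRank`). The condition for a pair `i`, `β i` is (`DistinguishedRanks`): different degrees, or
`[F i : ℚ] = 2 g` with odd `g` and `f i * f (β i)` is not a square, or `g` is twice an odd number and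
`f i * f (β i)` is not a sum of two squares.

**Third part: two abelian varieties, no condition on the fields.** Let `A` have the characteristic
polynomial of `γ` given by two Weil numbers with only the slopes `0`, `1 / 2`, `1`, in CM fields
`F₁` and `F₂` with absolutely irreducible odd functions. *Nothing is assumed about the relation of `F₁`
and `F₂`*; they may be equal. If the `p`-ranks and degrees satisfy `DistinguishedRanks`, then the
conclusion holds. For example: let `g` be odd and square free (or odd, and `f g` not a square), let
`A₁` and `A₂` be abelian varieties of dimension `g` over a finite field, with Frobenius fields as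
above of degree `2 g`, `A₁` ordinary and `A₂` with the slopes `0`, `1 / 2`, `1` and `p`-rank
`0 < f < g`. Then the Tate conjecture holds in all codimensions for all `A₁ ^ r × A₂ ^ s`. For instance
`A₁` and `A₂` may be abelian threefolds with complex multiplication by the same sextic field.

Relation to the starting files and to the results of this team. The reduction of the theorem to the
multiplicative relations (`MaximalAngleRank`) is `Y1.TS.split_of_angle` of the starting files
(`AllCMTypesTimesSmooth`, this folder). `SmallSlopeDeviation` (this folder, helper70) is about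
pairwise unrelated fields `F i`. `ThreeTypesPerField` (MP_950c68_ag, helper70) treats, over finite
fields, factors with the same field, by the slope functions themselves; here the fields may be
different but related, so that the slope functions cannot be compared.

The proof. Let `V i` be the space of the odd rational functions on the embeddings of `F i`, and `u i`
the slope function minus `1 / 2`. Second moments and Schur's lemma reduce to relations
`∑ x, n x * u i (σ x) + ∑ y, n' y * u i' (σ y) = 0` (for all `σ`) with `n` in `V i`, `n'` in `V i'`,
`i' = β i`. If there is one with `n ≠ 0` then these pairs `(n, n')` form the graph of an equivariant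
isomorphism `T` of `V i` with `V i'`, and the second moments give
`d (π i) ∑ x, (n x) ^ 2 = d (π i') ∑ y, (T n y) ^ 2`. So `T` is a similitude of two rational quadratic
forms which are sums of `g` squares, with the multiplier `λ = d (π i) / d (π i')`. If `g` is odd the
determinant shows that `λ` is a square; if `g = 4 k + 2` then `λ` is a sum of two squares, by the
cancellation theorem of Witt (in the form of an elimination, with the multiplicativity of sums of
four squares).
-/

set_option autoImplicit false

namespace Pool.Agent.Results.MP_2a05c8_ag.TwoRelatedFields

open NumberField Module IntermediateField Pool.Agent.Y137.MV Pool.Agent.Y137.SL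
  Pool.Agent.Y1.CT Pool.Agent.Q70.SQ Pool.Agent.Q70.MM

/-- The Tate classes on the products `A ^ r × U` come from those of degree two on `A ^ r` and from
those on `U`, whenever the characteristic polynomial of `γ` on `V` is the product of the minimal
polynomials of the `π i` and the eigenvalues of `γ` on `M` are roots of a polynomial each of whose
complex roots is, for each `i`, unrelated to `F i` or of smaller degree than `F i`. -/
def Splits (p : ℕ) [Fact p.Prime] (a : ℕ) {I : Type} [Fintype I] (F : I → Type)
    [∀ i, Field (F i)] [∀ i, NumberField (F i)] [∀ i, IsCMField (F i)] (π : ∀ i, F i) : Prop :=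
  ∀ (k : Type) [Field k] [CharZero k] (V : Type) [AddCommGroup V] [Module k V]
    [FiniteDimensional k V] (M : Type) [AddCommGroup M] [Module k M] [FiniteDimensional k M]
    (Γ : Type) [Group Γ] (ρ : Representation k Γ V) (τ : Representation k Γ M) (χ : Γ →* k)
    (γ : Γ), IsPolarised ρ χ γ p a π →
    ∀ f : Polynomial ℚ, f ≠ 0 → Polynomial.aeval (τ γ) (f.map (algebraMap ℚ k)) = 0 →
    (∀ α : ℂ, Polynomial.aeval α f = 0 → ∀ i,
      UnrelatedTo (F i) α ∨ (minpoly ℚ α).natDegree < finrank ℚ (F i)) → ClassesSplit ρ χ τ

/-- **The Tate conjecture for `A ^ r × U` follows from the Tate conjecture for `U`, for abelian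
varieties `A` with one Frobenius element with absolutely irreducible CM fields, which are unrelated
except for pairs distinguished by the degrees or by the mean square deviations of the slopes (first
part), for example by the `p`-ranks (second part), in particular for two factors with arbitrary such
fields (third part).** -/
theorem result :
    (∀ (p : ℕ) [Fact p.Prime] (a : ℕ) (I : Type) [Fintype I] (F : I → Type)
      [∀ i, Field (F i)] [∀ i, NumberField (F i)] [∀ i, IsCMField (F i)] (π : ∀ i, F i),
      0 < a → (∀ i, ℚ⟮π i⟯ = ⊤) →
      (∀ i, π i * IsCMField.complexConj (F i) (π i) = (p : F i) ^ a) →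
      (∀ i, OddAbsolutelyIrreducible (F i)) → (∀ i, HasOtherSlope p a (π i)) →
      RelatedPairs p a π → Splits p a F π) ∧
    (∀ (p : ℕ) [Fact p.Prime] (a : ℕ) (I : Type) [Fintype I] (F : I → Type)
      [∀ i, Field (F i)] [∀ i, NumberField (F i)] [∀ i, IsCMField (F i)] (π : ∀ i, F i)
      (β : I → I) (f : I → ℕ),
      0 < a → (∀ i, ℚ⟮π i⟯ = ⊤) →
      (∀ i, π i * IsCMField.complexConj (F i) (π i) = (p : F i) ^ a) →
      (∀ i, OddAbsolutelyIrreducible (F i)) →
      (∀ i, 0 < f i) → (∀ i, HasPRank p a (π i) (f i)) → (∀ i, β (β i) = i) →
      (∀ i i', i' ≠ i → i' ≠ β i → Pool.Agent.Y137.MV.Unrelated (F i) (F i')) →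
      (∀ i, β i ≠ i →
        DistinguishedRanks (finrank ℚ (F i)) (finrank ℚ (F (β i))) (f i) (f (β i))) →
      Splits p a F π) ∧
    (∀ (p : ℕ) [Fact p.Prime] (a : ℕ) (F : Bool → Type)
      [∀ i, Field (F i)] [∀ i, NumberField (F i)] [∀ i, IsCMField (F i)] (π : ∀ i, F i)
      (f : Bool → ℕ),
      0 < a → (∀ i, ℚ⟮π i⟯ = ⊤) →
      (∀ i, π i * IsCMField.complexConj (F i) (π i) = (p : F i) ^ a) →
      (∀ i, OddAbsolutelyIrreducible (F i)) →
      (∀ i, 0 < f i) → (∀ i, HasPRank p a (π i) (f i)) →
      DistinguishedRanks (finrank ℚ (F false)) (finrank ℚ (F true)) (f false) (f true) →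
      Splits p a F π) := by
  have h1 : ∀ (p : ℕ) [Fact p.Prime] (a : ℕ) (I : Type) [Fintype I] (F : I → Type)
      [∀ i, Field (F i)] [∀ i, NumberField (F i)] [∀ i, IsCMField (F i)] (π : ∀ i, F i),
      0 < a → (∀ i, ℚ⟮π i⟯ = ⊤) →
      (∀ i, π i * IsCMField.complexConj (F i) (π i) = (p : F i) ^ a) →
      (∀ i, OddAbsolutelyIrreducible (F i)) → (∀ i, HasOtherSlope p a (π i)) →
      RelatedPairs p a π → Splits p a F π := by
    intro p _ a I _ F _ _ _ π ha hgen hw habs hns hrp k _ _ V _ _ _ M _ _ _ Γ _ ρ τ χ γ hp f hf0
      hfγ hf
    refine Pool.Agent.Y1.TS.split_of_angle hgen hw (angle_of_pairs ha hw habs hns hrp) k V M Γ ρ τ χ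
      γ hp f hf0 hfγ fun α hα i => ?_
    rcases hf α hα i with h2 | h2
    · exact h2
    · have h3 : IsAlgebraic ℚ α := ⟨f, hf0, hα⟩
      exact Pool.Agent.Q70.HN.unrelatedTo_of_degree (habs i).1 h3.isIntegral h2
  have h2 : ∀ (p : ℕ) [Fact p.Prime] (a : ℕ) (I : Type) [Fintype I] (F : I → Type)
      [∀ i, Field (F i)] [∀ i, NumberField (F i)] [∀ i, IsCMField (F i)] (π : ∀ i, F i)
      (β : I → I) (f : I → ℕ),
      0 < a → (∀ i, ℚ⟮π i⟯ = ⊤) →
      (∀ i, π i * IsCMField.complexConj (F i) (π i) = (p : F i) ^ a) →
      (∀ i, OddAbsolutelyIrreducible (F i)) →
      (∀ i, 0 < f i) → (∀ i, HasPRank p a (π i) (f i)) → (∀ i, β (β i) = i) →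
      (∀ i i', i' ≠ i → i' ≠ β i → Pool.Agent.Y137.MV.Unrelated (F i) (F i')) →
      (∀ i, β i ≠ i →
        DistinguishedRanks (finrank ℚ (F i)) (finrank ℚ (F (β i))) (f i) (f (β i))) →
      Splits p a F π := by
    intro p _ a I _ F _ _ _ π β f ha hgen hw habs hf hrk hβ hun hd
    exact h1 p a I F π ha hgen hw habs (fun i => hasOther_of_rank (hf i) (hrk i))
      ⟨β, hβ, hun, fun i hi => distinguished_of_ranks ha (hgen i) (hgen _) (hf i) (hf _) (hrk i)
        (hrk _) (hd i hi)⟩
  refine ⟨h1, h2, ?_⟩
  intro p _ a F _ _ _ π f ha hgen hw habs hf hrk hd
  refine h2 p a Bool F π not f ha hgen hw habs hf hrk (fun i => Bool.not_not i) ?_ ?_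
  · intro i i' hi hi'
    exfalso
    revert i i'
    decide
  · rintro (_ | _) _
    · exact hd
    · rcases hd with hd | ⟨hd1, hd2⟩ | ⟨hd1, hd2⟩
      · exact Or.inl (Ne.symm hd)
      · by_cases h3 : finrank ℚ (F true) = finrank ℚ (F false)
        · refine Or.inr (Or.inl ⟨?_, ?_⟩)
          · rw [h3]
            exact hd1
          · rw [mul_comm]
            exact hd2
        · exact Or.inl h3
      · by_cases h3 : finrank ℚ (F true) = finrank ℚ (F false)
        · refine Or.inr (Or.inr ⟨?_, ?_⟩)
          · rw [h3]
            exact hd1
          · rw [mul_comm]
            exact hd2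
        · exact Or.inl h3

end Pool.Agent.Results.MP_2a05c8_ag.TwoRelatedFields
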